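import Mathlib
import Pool.Agent.X70.ParTree

set_option autoImplicit false

/-!
# MP_bde484_co, question Q1: disproof

For all `3 ≤ p ≤ d` there is a tree `T` of order `n = (2d+1)^2 - 1` with
`γ_d^p(T) = 4d+1 > (n - 2√n + d + 1)/d`.

The tree: a centre adjacent to `2d+1` hubs; one hub carries two pendant paths with `d-1` vertices,
every other hub carries two pendant paths with `d` vertices.
-/

namespace Pool.Agent.Results.MP_bde484_co.AllPairsFail

open SimpleGraph

/-- `X` is a `d`-distance dominating set of `G`. -/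
def DistDominating {V : Type} (G : SimpleGraph V) (d : ℕ) (X : Finset V) : Prop :=
  ∀ u, u ∉ X → ∃ x ∈ X, G.edist u x ≤ d

/-- `X` is a `p`-packing of `G`. -/
def Packing {V : Type} (G : SimpleGraph V) (p : ℕ) (X : Finset V) : Prop :=
  ∀ u ∈ X, ∀ v ∈ X, u ≠ v → (p : ℕ∞) + 1 ≤ G.edist u v

/-- The `d`-distance `p`-packing domination number (`⊤` if no such set exists). -/
noncomputable def gamma {V : Type} (G : SimpleGraph V) (d p : ℕ) : ℕ∞ :=
  ⨅ X ∈ {X : Finset V | DistDominating G d X ∧ Packing G p X}, (X.card : ℕ∞)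

/-! ### the tree -/

/-- number of vertices of each of the two pendant paths at hub `i` -/
def len (d : ℕ) (i : Fin (2 * d + 1)) : ℕ := if i = 0 then d - 1 else d

/-- The vertices: centre `none`, hubs `some ⟨i, none⟩`, path vertices `some ⟨i, some (b, j)⟩`. -/
abbrev W (d : ℕ) : Type := Option (Σ i : Fin (2 * d + 1), Option (Bool × Fin (len d i)))

def par (d : ℕ) : W d → W d
  | none => none
  | some ⟨_, none⟩ => none
  | some ⟨i, some (b, j)⟩ =>
      if j.val = 0 then some ⟨i, none⟩
      else some ⟨i, some (b, ⟨j.val - 1, lt_of_le_of_lt (Nat.sub_le _ _) j.isLt⟩)⟩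

def dep (d : ℕ) : W d → ℕ
  | none => 0
  | some ⟨_, none⟩ => 1
  | some ⟨_, some (_, j)⟩ => j.val + 2

/-- distance to the leaf of branch `b` at hub `i` -/
def fl (d : ℕ) (i : Fin (2 * d + 1)) (b : Bool) : W d → ℕ
  | none => len d i + 1
  | some ⟨k, none⟩ => if k = i then len d i else len d i + 2
  | some ⟨k, some (b', j)⟩ =>
      if k = i then (if b' = b then len d i - 1 - j.val else len d i + j.val + 1)
      else len d i + 3 + j.val

theorem dep_par (d : ℕ) (v : W d) (hv : v ≠ none) : dep d v = dep d (par d v) + 1 := by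
  rcases v with _ | ⟨i, _ | ⟨b, j⟩⟩
  · exact absurd rfl hv
  · rfl
  · by_cases h : j.val = 0
    · simp [par, dep, h]
    · simp only [par, dep, h, if_false]
      omega

/-- the tree -/
def T (d : ℕ) : SimpleGraph (W d) := X70.parGraph none (par d)

theorem T_isTree (d : ℕ) : (T d).IsTree := X70.parGraph_isTree (dep_par d)

theorem T_conn (d : ℕ) : (T d).Connected := X70.parGraph_connected (dep_par d)

theorem dist_none (d : ℕ) (v : W d) : (T d).dist v none ≤ dep d v :=
  X70.dist_root_le (dep_par d) v

theorem dep_lip (d : ℕ) (u v : W d) : dep d v ≤ dep d u + (T d).dist u v := by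
  apply X70.le_add_dist (T_conn d)
  apply X70.parGraph_lip
  intro v hv
  have := dep_par d v hv
  omega

theorem fl_lip (d : ℕ) (i : Fin (2 * d + 1)) (b : Bool) (u v : W d) :
    fl d i b v ≤ fl d i b u + (T d).dist u v := by
  apply X70.le_add_dist (T_conn d)
  apply X70.parGraph_lip
  intro v hv
  rcases v with _ | ⟨k, _ | ⟨b', j⟩⟩
  · exact absurd rfl hv
  · by_cases hk : k = i
    · simp only [par, fl, hk, if_true]; omega
    · simp only [par, fl, hk, if_false]; omega
  · have hj := j.isLt
    by_cases hk : k = i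
    · subst hk
      by_cases h : j.val = 0
      · by_cases hb : b' = b
        · simp only [par, fl, h, if_true, hb]; omega
        · simp only [par, fl, h, if_true, hb, if_false]; omega
      · by_cases hb : b' = b
        · simp only [par, fl, h, if_true, if_false, hb]; omega
        · simp only [par, fl, h, if_true, hb, if_false]; omega
    · by_cases h : j.val = 0
      · simp only [par, fl, h, if_true, hk, if_false]; omega
      · simp only [par, fl, h, hk, if_false]; omega

theorem len_pos {d : ℕ} (hd : 3 ≤ d) (i : Fin (2 * d + 1)) : 0 < len d i := by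
  unfold len; split <;> omega

/-- the leaf of branch `b` at hub `i` -/
def leaf {d : ℕ} (hd : 3 ≤ d) (l : Fin (2 * d + 1) × Bool) : W d :=
  some ⟨l.1, some (l.2, ⟨len d l.1 - 1, Nat.sub_lt (len_pos hd l.1) one_pos⟩)⟩

theorem fl_leaf {d : ℕ} (hd : 3 ≤ d) (l : Fin (2 * d + 1) × Bool) :
    fl d l.1 l.2 (leaf hd l) = 0 := by
  simp [fl, leaf]

/-- vertices that can dominate two leaves -/
def Z (d : ℕ) (x : W d) : Prop :=
  x = none ∨ (∃ i, x = some ⟨i, none⟩) ∨ ∃ b j, x = some ⟨0, some (b, j)⟩ ∧ j.val = 0

theorem collide {d : ℕ} (hd : 3 ≤ d) {i k : Fin (2 * d + 1)} {b c : Bool} (hne : (i, b) ≠ (k, c))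
    {x : W d} (h1 : fl d i b x ≤ d) (h2 : fl d k c x ≤ d) : i = k ∧ Z d x := by
  have hl : ∀ m, len d m = d - 1 ∧ m = 0 ∨ len d m = d ∧ m ≠ 0 := by
    intro m; unfold len; by_cases h : m = 0 <;> simp [h]
  have hi := hl i
  have hk := hl k
  rcases x with _ | ⟨m, _ | ⟨b', j⟩⟩
  · simp only [fl] at h1 h2
    have e1 : i = 0 := by rcases hi with h | h; exact h.2; omega
    have e2 : k = 0 := by rcases hk with h | h; exact h.2; omega
    exact ⟨by rw [e1, e2], Or.inl rfl⟩
  · by_cases hmi : m = i
    · by_cases hmk : m = k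
      · exact ⟨hmi.symm.trans hmk, Or.inr (Or.inl ⟨m, rfl⟩)⟩
      · simp only [fl, hmk, if_false] at h2; omega
    · simp only [fl, hmi, if_false] at h1; omega
  · by_cases hmi : m = i
    · by_cases hmk : m = k
      · subst hmi
        subst hmk
        refine ⟨rfl, Or.inr (Or.inr ?_)⟩
        have hbc : b ≠ c := fun h => hne (by rw [h])
        have key : len d m + j.val + 1 ≤ d := by
          by_cases hb : b' = b
          · have hc : b' ≠ c := fun h => hbc (hb.symm.trans h)
            simpa only [fl, if_true, hc, if_false] using h2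
          · simpa only [fl, if_true, hb, if_false] using h1
        have hm : m = 0 := by
          rcases hi with h | h
          · exact h.2
          · omega
        subst hm
        exact ⟨b', j, rfl, by rcases hi with h | h <;> omega⟩
      · simp only [fl, hmk, if_false] at h2; omega
    · simp only [fl, hmi, if_false] at h1; omega

theorem dist_Z {d : ℕ} {x y : W d} (hx : Z d x) (hy : Z d y) : (T d).dist x y ≤ 3 := by
  have tri : (T d).dist x y ≤ dep d x + dep d y := by
    have h1 := (T_conn d).dist_triangle (u := x) (v := none) (w := y)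
    have h2 := dist_none d x
    have h3 := dist_none d y
    rw [SimpleGraph.dist_comm] at h3
    omega
  rcases hx with rfl | ⟨i, rfl⟩ | ⟨b, j, rfl, hj⟩
  · rcases hy with rfl | ⟨k, rfl⟩ | ⟨c, l, rfl, hl⟩
    · simp only [dep] at tri; omega
    · simp only [dep] at tri; omega
    · simp only [dep] at tri; omega
  · rcases hy with rfl | ⟨k, rfl⟩ | ⟨c, l, rfl, hl⟩
    · simp only [dep] at tri; omega
    · simp only [dep] at tri; omega
    · simp only [dep] at tri; omega
  · rcases hy with rfl | ⟨k, rfl⟩ | ⟨c, l, rfl, hl⟩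
    · simp only [dep] at tri; omega
    · simp only [dep] at tri; omega
    · have a1 : (T d).Adj (some ⟨0, some (b, j)⟩) (some ⟨0, none⟩) := by
        have := X70.parGraph_adj_par (r := (none : W d)) (par := par d) (dep_par d)
          (v := some ⟨0, some (b, j)⟩) (by simp)
        have e : par d (some ⟨0, some (b, j)⟩) = some ⟨0, none⟩ := by
          simp only [par, hj, if_true]
        rw [e] at this
        exact this
      have a2 : (T d).Adj (some ⟨0, some (c, l)⟩) (some ⟨0, none⟩) := by
        have := X70.parGraph_adj_par (r := (none : W d)) (par := par d) (dep_par d)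
          (v := some ⟨0, some (c, l)⟩) (by simp)
        have e : par d (some ⟨0, some (c, l)⟩) = some ⟨0, none⟩ := by
          simp only [par, hl, if_true]
        rw [e] at this
        exact this
      have h1 := (T_conn d).dist_triangle (u := some ⟨0, some (b, j)⟩) (v := some ⟨0, none⟩)
        (w := some ⟨0, some (c, l)⟩)
      have e1 := dist_eq_one_iff_adj.2 a1
      have e2 := dist_eq_one_iff_adj.2 a2.symm
      omega

theorem edist_eq (d : ℕ) (u v : W d) : (T d).edist u v = ((T d).dist u v : ℕ∞) :=
  (((T_conn d).preconnected u v).coe_dist_eq_edist).symm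

theorem lower {d p : ℕ} (hp : 3 ≤ p) (hpd : p ≤ d) (X : Finset (W d))
    (hX : DistDominating (T d) d X) (hP : Packing (T d) p X) : 4 * d + 1 ≤ X.card := by
  have hd : 3 ≤ d := hp.trans hpd
  have hex : ∀ l : Fin (2 * d + 1) × Bool, ∃ x ∈ X, fl d l.1 l.2 x ≤ d := by
    intro l
    by_cases hl : leaf hd l ∈ X
    · exact ⟨_, hl, by rw [fl_leaf]; omega⟩
    · obtain ⟨x, hx, hdx⟩ := hX _ hl
      refine ⟨x, hx, ?_⟩
      rw [edist_eq] at hdx
      have h1 : (T d).dist (leaf hd l) x ≤ d := by exact_mod_cast hdx
      have h2 := fl_lip d l.1 l.2 (leaf hd l) x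
      rw [fl_leaf] at h2
      omega
  choose g hgX hg using hex
  have hZ : ∀ x ∈ X, ∀ y ∈ X, Z d x → Z d y → x = y := by
    intro x hx y hy zx zy
    by_contra hne
    have h1 := hP x hx y hy hne
    rw [edist_eq] at h1
    have h2 : p + 1 ≤ (T d).dist x y := by exact_mod_cast h1
    have h3 := dist_Z zx zy
    omega
  have col : ∀ l m, l ≠ m → g l = g m → l.1 = m.1 ∧ Z d (g l) := by
    intro l m hne h
    have h2 := hg m
    rw [← h] at h2
    exact collide hd (by simpa using hne) (hg l) h2
  by_cases hinj : Function.Injective g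
  · have h1 : (Finset.univ : Finset (Fin (2 * d + 1) × Bool)).card ≤ X.card :=
      Finset.card_le_card_of_injOn g (fun l _ => hgX l) (hinj.injOn)
    rw [Finset.card_univ, Fintype.card_prod, Fintype.card_fin, Fintype.card_bool] at h1
    omega
  · obtain ⟨l, m, hlm, hne⟩ : ∃ l m, g l = g m ∧ l ≠ m := by
      by_contra hcon
      exact hinj fun a b hab => by
        by_contra hab'
        exact hcon ⟨a, b, hab, hab'⟩
    have c1 := col l m hne hlm
    have h1 : ((Finset.univ : Finset (Fin (2 * d + 1) × Bool)).erase m).card ≤ X.card := by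
      refine Finset.card_le_card_of_injOn g (fun l _ => hgX l) ?_
      intro l' hl' m' hm' hlm'
      by_contra hne'
      have hl'' : l' ≠ m := (Finset.mem_erase.1 hl').1
      have hm'' : m' ≠ m := (Finset.mem_erase.1 hm').1
      have c2 := col l' m' hne' hlm'
      have e := hZ _ (hgX l) _ (hgX l') c1.2 c2.2
      have h3 : l.1 = l'.1 := by
        by_cases hh : l = l'
        · rw [hh]
        · exact (col l l' hh e).1
      have k1 : l'.1 = m.1 := h3.symm.trans c1.1
      have k2 : m'.1 = m.1 := c2.1.symm.trans k1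
      have n1 : l'.2 ≠ m.2 := fun h => hl'' (Prod.ext k1 h)
      have n2 : m'.2 ≠ m.2 := fun h => hm'' (Prod.ext k2 h)
      have n3 : l'.2 = m'.2 := by
        revert n1 n2
        generalize l'.2 = x
        generalize m'.2 = y
        generalize m.2 = z
        revert x y z
        decide
      exact hne' (Prod.ext (k1.trans k2.symm) n3)
    rw [Finset.card_erase_of_mem (Finset.mem_univ _), Finset.card_univ, Fintype.card_prod,
      Fintype.card_fin, Fintype.card_bool] at h1
    omega

/-- an optimal set -/
def X0 {d : ℕ} (hd : 3 ≤ d) : Finset (W d) :=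
  insert none (((Finset.univ.erase (0 : Fin (2 * d + 1))) ×ˢ (Finset.univ : Finset Bool)).image
    (leaf hd))

theorem X0_card {d : ℕ} (hd : 3 ≤ d) : (X0 hd).card ≤ 4 * d + 1 := by
  unfold X0
  refine (Finset.card_insert_le _ _).trans ?_
  have h := Finset.card_image_le (s := (Finset.univ.erase (0 : Fin (2 * d + 1))) ×ˢ
    (Finset.univ : Finset Bool)) (f := leaf hd)
  rw [Finset.card_product, Finset.card_erase_of_mem (Finset.mem_univ _), Finset.card_univ,
    Finset.card_univ, Fintype.card_fin, Fintype.card_bool] at h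
  omega

theorem X0_dom {d : ℕ} (hd : 3 ≤ d) : DistDominating (T d) d (X0 hd) := by
  intro u hu
  refine ⟨none, Finset.mem_insert_self _ _, ?_⟩
  rw [edist_eq]
  have h1 := dist_none d u
  have h2 : dep d u ≤ d := by
    rcases u with _ | ⟨i, _ | ⟨b, j⟩⟩
    · simp [dep]
    · simp only [dep]; omega
    · by_contra hc
      apply hu
      simp only [dep] at hc
      have hj := j.isLt
      have hi : i ≠ 0 := by
        intro h
        subst h
        simp only [len, if_true] at hj
        omega
      have hl : len d i = d := by simp [len, hi]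
      refine Finset.mem_insert_of_mem (Finset.mem_image.2 ⟨(i, b), ?_, ?_⟩)
      · simp [hi]
      · have hjj : j = ⟨len d i - 1, Nat.sub_lt (len_pos hd i) one_pos⟩ := by
          apply Fin.ext
          simp only
          omega
        rw [hjj]
        rfl
  exact_mod_cast h1.trans h2

theorem X0_pack {d p : ℕ} (hd : 3 ≤ d) (hp : 3 ≤ p) (hpd : p ≤ d) : Packing (T d) p (X0 hd) := by
  have hleaf : ∀ l : Fin (2 * d + 1) × Bool, l.1 ≠ 0 →
      p + 1 ≤ (T d).dist none (leaf hd l) := by
    intro l hl
    have h := dep_lip d none (leaf hd l)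
    have hl : len d l.1 = d := by simp [len, hl]
    have e1 : dep d (leaf hd l) = len d l.1 - 1 + 2 := rfl
    have e2 : dep d none = 0 := rfl
    rw [e1, e2] at h
    omega
  intro u hu v hv hne
  rw [edist_eq]
  have key : p + 1 ≤ (T d).dist u v := by
    rcases Finset.mem_insert.1 hu with rfl | hu
    · rcases Finset.mem_insert.1 hv with rfl | hv
      · exact absurd rfl hne
      · obtain ⟨l, hl, rfl⟩ := Finset.mem_image.1 hv
        exact hleaf l (by simpa using hl)
    · obtain ⟨l, hl, rfl⟩ := Finset.mem_image.1 hu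
      rcases Finset.mem_insert.1 hv with rfl | hv
      · rw [SimpleGraph.dist_comm]
        exact hleaf l (by simpa using hl)
      · obtain ⟨m, hm, rfl⟩ := Finset.mem_image.1 hv
        have hlm : l ≠ m := fun h => hne (by rw [h])
        have hl0 : l.1 ≠ 0 := by simpa using hl
        have hm0 : m.1 ≠ 0 := by simpa using hm
        have h := fl_lip d l.1 l.2 (leaf hd l) (leaf hd m)
        rw [fl_leaf] at h
        have hl1 : len d l.1 = d := by simp [len, hl0]
        have hm1 : len d m.1 = d := by simp [len, hm0]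
        by_cases hk : m.1 = l.1
        · have hb : m.2 ≠ l.2 := fun hb => hlm (Prod.ext hk.symm hb.symm)
          have e1 : fl d l.1 l.2 (leaf hd m) = len d l.1 + (len d m.1 - 1) + 1 := by
            have : fl d l.1 l.2 (leaf hd m) = if m.1 = l.1 then
              (if m.2 = l.2 then len d l.1 - 1 - (len d m.1 - 1) else
                len d l.1 + (len d m.1 - 1) + 1)
              else len d l.1 + 3 + (len d m.1 - 1) := rfl
            rw [this, if_pos hk, if_neg hb]
          omega
        · have e1 : fl d l.1 l.2 (leaf hd m) = len d l.1 + 3 + (len d m.1 - 1) := by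
            have : fl d l.1 l.2 (leaf hd m) = if m.1 = l.1 then
              (if m.2 = l.2 then len d l.1 - 1 - (len d m.1 - 1) else
                len d l.1 + (len d m.1 - 1) + 1)
              else len d l.1 + 3 + (len d m.1 - 1) := rfl
            rw [this, if_neg hk]
          omega
  exact_mod_cast key

theorem gamma_T {d p : ℕ} (hp : 3 ≤ p) (hpd : p ≤ d) : gamma (T d) d p = (4 * d + 1 : ℕ) := by
  have hd : 3 ≤ d := hp.trans hpd
  apply le_antisymm
  · refine (iInf₂_le (X0 hd) ⟨X0_dom hd, X0_pack hd hp hpd⟩).trans ?_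
    exact_mod_cast X0_card hd
  · refine le_iInf₂ fun X hX => ?_
    exact_mod_cast lower hp hpd X hX.1 hX.2

theorem card_W {d : ℕ} (hd : 3 ≤ d) : Fintype.card (W d) = 4 * d ^ 2 + 4 * d := by
  have hs : ∑ i : Fin (2 * d + 1), (1 + 2 * len d i) = 4 * d ^ 2 + 4 * d - 1 := by
    rw [Fin.sum_univ_succ]
    have h0 : len d 0 = d - 1 := by simp [len]
    have h1 : ∀ i : Fin (2 * d), len d i.succ = d := by
      intro i; simp [len, Fin.succ_ne_zero]
    simp only [h0, h1, Finset.sum_const, Finset.card_univ, Fintype.card_fin, smul_eq_mul]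
    have : 2 * d * (1 + 2 * d) = 4 * d ^ 2 + 2 * d := by ring
    omega
  have e : Fintype.card (W d) = (∑ i : Fin (2 * d + 1), (1 + 2 * len d i)) + 1 := by
    rw [Fintype.card_option, Fintype.card_sigma]
    congr 1
    apply Finset.sum_congr rfl
    intro i _
    rw [Fintype.card_option, Fintype.card_prod, Fintype.card_bool, Fintype.card_fin]
    omega
  rw [e, hs]
  omega

/-- **Result.**  For all integers `3 ≤ p ≤ d` there is a tree `T` of order `n` such that
`γ_d^p(T)` is finite and larger than `(n - 2√n + d + 1)/d`. -/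
theorem result : ∀ p d : ℕ, 3 ≤ p → p ≤ d →
    ∃ (V : Type) (_ : Fintype V) (T : SimpleGraph V), T.IsTree ∧
      ∃ m : ℕ, gamma T d p = m ∧
        ((Fintype.card V : ℝ) - 2 * √(Fintype.card V : ℝ) + d + 1) / d < m := by
  intro p d hp hpd
  have hd : 3 ≤ d := hp.trans hpd
  refine ⟨W d, inferInstance, T d, T_isTree d, 4 * d + 1, gamma_T hp hpd, ?_⟩
  rw [card_W hd]
  have hd' : (3 : ℝ) ≤ d := by exact_mod_cast hd
  push_cast
  rw [div_lt_iff₀ (by linarith)]
  have h : (4 * (d : ℝ) + 1) / 2 < √(4 * (d : ℝ) ^ 2 + 4 * d) := by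
    apply Real.lt_sqrt_of_sq_lt
    nlinarith
  nlinarith

end Pool.Agent.Results.MP_bde484_co.AllPairsFail
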